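import Pool.Agent.R623.AF.Stm3

/-!
# AF-LIO2: the case `k = 0` with `max ‖σ x‖ ‖σ y‖` (subtask of project AF, helper623).
-/

set_option autoImplicit false

namespace Pool.Agent.R623.AF

open NumberField IsDedekindDomain

theorem lio2_prod_ge_one (K : Type) [Field K] [NumberField K] (s : K) (hs : s ≠ 0)
    (hi : IsIntegral ℤ s) : 1 ≤ ∏ σ : K →+* ℂ, ‖σ s‖ := by
  have h1 : ∏ σ : K →+* ℂ, σ s = algebraMap ℚ ℂ (Algebra.norm ℚ s) := by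
    rw [Algebra.norm_eq_prod_embeddings ℚ ℂ s]
    exact Fintype.prod_equiv (RingHom.equivRatAlgHom K ℂ) _ _ (fun σ => by simp [RingHom.equivRatAlgHom_apply])
  rw [← norm_prod, h1]
  have h2 : IsIntegral ℤ (Algebra.norm ℚ s) := Algebra.isIntegral_norm ℚ hi
  obtain ⟨m, hm⟩ := IsIntegrallyClosed.isIntegral_iff.1 h2
  have h3 : Algebra.norm ℚ s ≠ 0 := Algebra.norm_ne_zero_iff.2 hs
  rw [← hm]
  have hm0 : m ≠ 0 := by
    rintro rfl
    apply h3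
    rw [← hm]
    simp
  have h4 : (1 : ℤ) ≤ |m| := Int.one_le_abs hm0
  have h5 : (1 : ℝ) ≤ |(m : ℝ)| := by exact_mod_cast h4
  simpa using h5

theorem LIO2 : S_LIO2 := by
  intro K _ _ x y p h σ₀ Λ hp hx hy hxy hint hh hexp hΛ
  classical
  have hx0 : σ₀ x ≠ 0 := (map_ne_zero σ₀).2 hx
  have hprod := lio2_prod_ge_one K (x + y) hxy hint
  set m : (K →+* ℂ) → ℝ := fun σ => max ‖σ x‖ ‖σ y‖ with hm
  have hmx : ∀ σ, ‖σ x‖ ≤ m σ := fun σ => le_max_left _ _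
  have hmy : ∀ σ, ‖σ y‖ ≤ m σ := fun σ => le_max_right _ _
  have hm1 : ∀ σ, 0 ≤ m σ := fun σ => (norm_nonneg _).trans (hmx σ)
  have hs : ∀ σ : K →+* ℂ, ‖σ (x + y)‖ ≤ 2 * m σ := by
    intro σ
    rw [map_add]
    refine (norm_add_le _ _).trans ?_
    linarith [hmx σ, hmy σ]
  -- isolate σ₀
  have h1 : ∏ σ : K →+* ℂ, ‖σ (x + y)‖ = ‖σ₀ (x + y)‖ *
      ∏ σ ∈ Finset.univ.erase σ₀, ‖σ (x + y)‖ :=
    (Finset.mul_prod_erase _ _ (Finset.mem_univ σ₀)).symm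
  have h2 : ∏ σ ∈ Finset.univ.erase σ₀, ‖σ (x + y)‖ ≤
      ∏ σ ∈ Finset.univ.erase σ₀, (2 * m σ) :=
    Finset.prod_le_prod (fun σ _ => norm_nonneg _) (fun σ _ => hs σ)
  have h3 : ∏ σ : K →+* ℂ, (2 * m σ) = (2 * m σ₀) *
      ∏ σ ∈ Finset.univ.erase σ₀, (2 * m σ) :=
    (Finset.mul_prod_erase _ _ (Finset.mem_univ σ₀)).symm
  have h4 : ∏ σ : K →+* ℂ, (2 * m σ) = 2 ^ Module.finrank ℚ K * ∏ σ : K →+* ℂ, m σ := by
    rw [Finset.prod_mul_distrib, Finset.prod_const, Finset.card_univ,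
      NumberField.Embeddings.card]
  have hE0 : 0 ≤ ∏ σ ∈ Finset.univ.erase σ₀, (2 * m σ) :=
    Finset.prod_nonneg (fun σ _ => by linarith [hm1 σ])
  have hquot : σ₀ (x + y) / σ₀ x = 1 - Complex.exp (Λ / p) := by
    rw [← hexp, map_add]
    field_simp
    ring
  have hq1 : ‖σ₀ (x + y)‖ = ‖1 - Complex.exp (Λ / p)‖ * ‖σ₀ x‖ := by
    rw [← hquot, norm_div, div_mul_cancel₀ _ (norm_ne_zero_iff.2 hx0)]
  have hp' : (1 : ℝ) ≤ p := by exact_mod_cast hp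
  have hΛp : ‖Λ / (p : ℂ)‖ ≤ ‖Λ‖ := by
    rw [norm_div, Complex.norm_natCast]
    exact div_le_self (norm_nonneg _) hp'
  have hq2 : ‖1 - Complex.exp (Λ / p)‖ ≤ 2 * ‖Λ‖ := by
    rw [norm_sub_rev]
    refine (Complex.norm_exp_sub_one_le (hΛp.trans hΛ)).trans ?_
    linarith
  have h5 : 1 ≤ ‖Λ‖ * (2 ^ Module.finrank ℚ K * (2 * Real.exp h)) := by
    have h6 : ‖σ₀ (x + y)‖ ≤ ‖Λ‖ * (2 * m σ₀) := by
      rw [hq1]
      calc ‖1 - Complex.exp (Λ / p)‖ * ‖σ₀ x‖ ≤ (2 * ‖Λ‖) * m σ₀ :=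
            mul_le_mul hq2 (hmx σ₀) (norm_nonneg _) (by positivity)
        _ = ‖Λ‖ * (2 * m σ₀) := by ring
    calc (1 : ℝ) ≤ ∏ σ : K →+* ℂ, ‖σ (x + y)‖ := hprod
      _ = ‖σ₀ (x + y)‖ * ∏ σ ∈ Finset.univ.erase σ₀, ‖σ (x + y)‖ := h1
      _ ≤ (‖Λ‖ * (2 * m σ₀)) * ∏ σ ∈ Finset.univ.erase σ₀, (2 * m σ) :=
        mul_le_mul h6 h2 (Finset.prod_nonneg (fun σ _ => norm_nonneg _))
          (mul_nonneg (norm_nonneg _) (by linarith [hm1 σ₀]))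
      _ = ‖Λ‖ * (2 ^ Module.finrank ℚ K * ∏ σ : K →+* ℂ, m σ) := by
        rw [mul_assoc, ← h3, h4]
      _ ≤ ‖Λ‖ * (2 ^ Module.finrank ℚ K * Real.exp h) := by
        apply mul_le_mul_of_nonneg_left _ (norm_nonneg _)
        exact mul_le_mul_of_nonneg_left hh (by positivity)
      _ ≤ ‖Λ‖ * (2 ^ Module.finrank ℚ K * (2 * Real.exp h)) := by
        apply mul_le_mul_of_nonneg_left _ (norm_nonneg _)
        apply mul_le_mul_of_nonneg_left _ (by positivity)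
        linarith [Real.exp_pos h]
  have he : (2 : ℝ) ≤ Real.exp 1 := by linarith [Real.add_one_le_exp (1 : ℝ)]
  have h7 : (2 : ℝ) ^ Module.finrank ℚ K * (2 * Real.exp h) ≤
      Real.exp (h + Module.finrank ℚ K + 1) := by
    rw [Real.exp_add, Real.exp_add]
    have h8 : (2 : ℝ) ^ Module.finrank ℚ K ≤ Real.exp (Module.finrank ℚ K) := by
      rw [← mul_one (Module.finrank ℚ K : ℝ), Real.exp_nat_mul]
      exact pow_le_pow_left₀ (by norm_num) he _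
    calc (2 : ℝ) ^ Module.finrank ℚ K * (2 * Real.exp h)
        ≤ Real.exp (Module.finrank ℚ K) * (Real.exp 1 * Real.exp h) := by
          gcongr
      _ = _ := by ring
  rw [Real.exp_neg, inv_le_iff_one_le_mul₀ (Real.exp_pos _)]
  exact h5.trans (mul_le_mul_of_nonneg_left h7 (norm_nonneg _))

end Pool.Agent.R623.AF
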