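import Pool.Agent.R738.Realif
import Pool.Agent.Helper477.Sph.Lens2

set_option autoImplicit false
set_option maxHeartbeats 400000

/-! # Two groups of order 819 acting freely on the sphere of dimension 17 -/

namespace Pool.Agent.R738.Ikeda17

open Matrix Pool.Agent.Helper477.Sph

/-- Index set of the coordinates of `ℂ^9`. -/
abbrev Ix := ZMod 3 × ZMod 3

/-- A parameter: the number by which the generator of order `9` acts, and the weights. -/
structure Par where
  r : ZMod 91
  w : Ix → ZMod 91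
  hr : ∀ b b' : ZMod 9, r ^ (b + b').val = r ^ b.val * r ^ b'.val
  hw : ∀ (b : ZMod 9) (p : Ix), w (p.1, p.2 + (b.cast : ZMod 3)) = r ^ b.val * w p
  hr1 : r ^ 3 = 1
  hr3 : ∀ b : ZMod 9, (b.cast : ZMod 3) ≠ 0 → IsUnit (1 - r ^ b.val)
  hwu : ∀ p : Ix, IsUnit (w p)

/-- The permutation of the coordinates. -/
def act (b : ZMod 9) (p : Ix) : Ix := (p.1, p.2 + (b.cast : ZMod 3))

theorem act_add (b b' : ZMod 9) (p : Ix) : act b' (act b p) = act (b + b') p := by
  unfold act
  have h : ((b + b').cast : ZMod 3) = (b.cast : ZMod 3) + (b'.cast : ZMod 3) :=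
    ZMod.cast_add (by norm_num) b b'
  rw [h, add_assoc]

theorem act_zero (p : Ix) : act 0 p = p := by
  unfold act
  simp

theorem act_inj (b : ZMod 9) : Function.Injective (act b) := by
  intro p q h
  unfold act at h
  rw [Prod.mk.injEq] at h
  exact Prod.ext h.1 (add_right_cancel h.2)

/-- The character of `ZMod 91`. -/
noncomputable abbrev χ : AddChar (ZMod 91) ℂ := ZMod.stdAddChar (N := 91)
/-- The character of `ZMod 9`. -/
noncomputable abbrev ψ : AddChar (ZMod 9) ℂ := ZMod.stdAddChar (N := 9)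

theorem norm_χ (a : ZMod 91) : ‖χ a‖ = 1 := AddChar.norm_apply _ _
theorem norm_ψ (a : ZMod 9) : ‖ψ a‖ = 1 := AddChar.norm_apply _ _

variable (P : Par)

/-- The complex matrix of the element `(a, b)`. -/
noncomputable def Mc (a : ZMod 91) (b : ZMod 9) : Matrix Ix Ix ℂ :=
  fun p p' => if p' = act b p then χ (a * P.w p) * ψ b else 0

theorem Mc_apply (a : ZMod 91) (b : ZMod 9) (p p' : Ix) :
    Mc P a b p p' = if p' = act b p then χ (a * P.w p) * ψ b else 0 := rfl

theorem nsmul_91 (y : ZMod 9) : (91 : ℕ) • y = y := by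
  have h : ((91 : ℕ) : ZMod 9) = 1 := by decide
  rw [nsmul_eq_mul, h, one_mul]

theorem χ_pow_91 (x : ZMod 91) : χ x ^ 91 = 1 := by
  have h : (91 : ℕ) • x = 0 := by
    rw [nsmul_eq_mul, ZMod.natCast_self, zero_mul]
  rw [← AddChar.map_nsmul_eq_pow, h, AddChar.map_zero_eq_one]

theorem ψ_pow_91 {y : ZMod 9} (h : ψ y ^ 91 = 1) : y = 0 := by
  rw [← AddChar.map_nsmul_eq_pow, nsmul_91] at h
  apply ZMod.injective_stdAddChar (N := 9)
  rw [AddChar.map_zero_eq_one]
  exact h

theorem Mc_mul (a a' : ZMod 91) (b b' : ZMod 9) :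
    Mc P a b * Mc P a' b' = Mc P (a + P.r ^ b.val * a') (b + b') := by
  ext p p''
  rw [Matrix.mul_apply]
  unfold Mc
  rw [Finset.sum_eq_single (act b p)]
  · rw [if_pos rfl, act_add]
    by_cases h : p'' = act (b + b') p
    · rw [if_pos h, if_pos h, AddChar.map_add_eq_mul]
      have h1 : P.w (act b p) = P.r ^ b.val * P.w p := P.hw b p
      rw [h1, add_mul, AddChar.map_add_eq_mul]
      have h2 : a' * (P.r ^ b.val * P.w p) = P.r ^ b.val * a' * P.w p := by ring
      rw [h2]
      ring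
    · rw [if_neg h, if_neg h, mul_zero]
  · intro q _ hq
    rw [if_neg hq, zero_mul]
  · intro h
    exact absurd (Finset.mem_univ _) h

theorem Mc_one : Mc P 0 0 = 1 := by
  ext p p'
  unfold Mc
  rw [act_zero, zero_mul, AddChar.map_zero_eq_one, AddChar.map_zero_eq_one, one_mul,
    Matrix.one_apply]
  simp only [eq_comm]

theorem Mc_star (a : ZMod 91) (b : ZMod 9) : Mc P a b * (Mc P a b)ᴴ = 1 := by
  ext p p''
  rw [Matrix.mul_apply, Finset.sum_eq_single (act b p)]
  · rw [Matrix.conjTranspose_apply]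
    unfold Mc
    rw [if_pos rfl, Matrix.one_apply]
    by_cases h : p = p''
    · subst h
      rw [if_pos rfl, if_pos rfl, Complex.star_def, Complex.mul_conj, Complex.normSq_eq_norm_sq,
        norm_mul, norm_χ, norm_ψ]
      norm_num
    · rw [if_neg h, if_neg (fun h' => h (act_inj b h')), star_zero, mul_zero]
  · intro q _ hq
    unfold Mc
    rw [if_neg hq, zero_mul]
  · intro h
    exact absurd (Finset.mem_univ _) h

theorem Mc_injective {a a' : ZMod 91} {b b' : ZMod 9} (h : Mc P a b = Mc P a' b') :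
    a = a' ∧ b = b' := by
  -- use the inverse
  have h1 : Mc P (a - P.r ^ (b - b').val * a') (b - b') = 1 := by
    have h2 : Mc P (a - P.r ^ (b - b').val * a') (b - b') * Mc P a' b' = Mc P a b := by
      rw [Mc_mul, sub_add_cancel, sub_add_cancel]
    rw [h] at h2
    have h3 := congrArg (fun M => M * (Mc P a' b')ᴴ) h2
    simpa only [Matrix.mul_assoc, Mc_star, Matrix.mul_one] using h3
  have h4 : ∀ (x : ZMod 91) (y : ZMod 9), Mc P x y = 1 → x = 0 ∧ y = 0 := by
    intro x y hxy
    have hact : (y.cast : ZMod 3) = 0 := by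
      by_contra hne
      have h5 := congrFun (congrFun hxy (0, 0)) (0, 0)
      unfold Mc at h5
      rw [if_neg, Matrix.one_apply_eq] at h5
      · exact zero_ne_one h5
      · unfold act
        rw [Prod.mk.injEq]
        rintro ⟨_, h6⟩
        rw [zero_add] at h6
        exact hne h6.symm
    have h5 := congrFun (congrFun hxy (0, 0)) (0, 0)
    have h6 : (0, 0) = act y ((0, 0) : Ix) := by
      unfold act; rw [hact, add_zero]
    unfold Mc at h5
    rw [if_pos h6, Matrix.one_apply_eq] at h5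
    -- raise to the 91-st power to kill χ
    have h7 : (ψ y) ^ 91 = 1 := by
      have h8 := congrArg (· ^ 91) h5
      simp only [mul_pow, one_pow] at h8
      rwa [χ_pow_91, one_mul] at h8
    have h10 : y = 0 := ψ_pow_91 h7
    subst h10
    rw [AddChar.map_zero_eq_one, mul_one] at h5
    have h12 : x * P.w (0, 0) = 0 := by
      apply ZMod.injective_stdAddChar (N := 91)
      rw [AddChar.map_zero_eq_one]
      exact h5
    exact ⟨((P.hwu (0, 0)).mul_left_eq_zero).mp h12, rfl⟩
  obtain ⟨h5, h6⟩ := h4 _ _ h1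
  have h7 : b = b' := sub_eq_zero.mp h6
  subst h7
  refine ⟨?_, rfl⟩
  rw [sub_self, ZMod.val_zero, pow_zero, one_mul, sub_eq_zero] at h5
  exact h5

/-- Enumeration of the real coordinates. -/
noncomputable def en : Ix ⊕ Ix ≃ Fin 18 :=
  Fintype.equivFinOfCardEq (by simp [Fintype.card_sum, Fintype.card_prod, ZMod.card])

/-- The orthogonal matrix of the element `(a, b)`. -/
noncomputable def Mo (a : ZMod 91) (b : ZMod 9) : Matrix.orthogonalGroup (Fin 18) ℝ :=
  ⟨Rf en (Mc P a b), Rf_mem en (Mc_star P a b)⟩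

theorem Mo_coe (a : ZMod 91) (b : ZMod 9) : (Mo P a b).1 = Rf en (Mc P a b) := rfl

theorem Mo_mul (a a' : ZMod 91) (b b' : ZMod 9) :
    Mo P a b * Mo P a' b' = Mo P (a + P.r ^ b.val * a') (b + b') := by
  apply Subtype.ext
  rw [Submonoid.coe_mul, Mo_coe, Mo_coe, Mo_coe, ← Rf_mul, Mc_mul]

theorem Mo_one : Mo P 0 0 = 1 := by
  apply Subtype.ext
  rw [Mo_coe, Mc_one, Rf_one]
  rfl

theorem Mo_injective {a a' : ZMod 91} {b b' : ZMod 9} (h : Mo P a b = Mo P a' b') :
    a = a' ∧ b = b' := by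
  apply Mc_injective P
  exact Rf_injective en (congrArg Subtype.val h)

theorem Mo_inv (a : ZMod 91) (b : ZMod 9) :
    (Mo P a b)⁻¹ = Mo P (-(P.r ^ (-b).val * a)) (-b) := by
  rw [inv_eq_iff_mul_eq_one, Mo_mul, add_neg_cancel, ← Mo_one]
  congr 1
  have h := P.hr b (-b)
  rw [add_neg_cancel, ZMod.val_zero, pow_zero] at h
  linear_combination a * h

/-- The group. -/
noncomputable def Gp : Subgroup (Matrix.orthogonalGroup (Fin 18) ℝ) where
  carrier := {g | ∃ a b, g = Mo P a b}
  mul_mem' := by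
    rintro _ _ ⟨a, b, rfl⟩ ⟨a', b', rfl⟩
    exact ⟨_, _, Mo_mul P a a' b b'⟩
  one_mem' := ⟨0, 0, (Mo_one P).symm⟩
  inv_mem' := by
    rintro _ ⟨a, b, rfl⟩
    exact ⟨_, _, Mo_inv P a b⟩

/-- The group is parametrised by pairs. -/
noncomputable def param : ZMod 91 × ZMod 9 ≃ Gp P :=
  Equiv.ofBijective (fun x => ⟨Mo P x.1 x.2, x.1, x.2, rfl⟩) (by
    constructor
    · intro x y h
      obtain ⟨h1, h2⟩ := Mo_injective P (congrArg Subtype.val h)
      exact Prod.ext h1 h2
    · rintro ⟨_, a, b, rfl⟩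
      exact ⟨(a, b), rfl⟩)

instance : Finite (Gp P) := Finite.of_equiv _ (param P)

theorem card_Gp : Nat.card (Gp P) = 819 := by
  rw [← Nat.card_congr (param P), Nat.card_eq_fintype_card, Fintype.card_prod, ZMod.card, ZMod.card]

theorem Mc_scalar_fix {b : ZMod 9} (hb : b ≠ 0) (v : Ix → ℂ) (ha : (b.cast : ZMod 3) = 0)
    (a : ZMod 91) (h : (Mc P a b).mulVec v = v) : v = 0 := by
  funext p
  have h1 := congrFun h p
  have hact : act b p = p := by
    unfold act; rw [ha, add_zero]
  have h2 : (Mc P a b).mulVec v p = χ (a * P.w p) * ψ b * v p := by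
    change ∑ q, Mc P a b p q * v q = _
    rw [Finset.sum_eq_single p]
    · rw [Mc_apply, hact, if_pos rfl]
    · intro q _ hq
      rw [Mc_apply, hact, if_neg hq, zero_mul]
    · intro h
      exact absurd (Finset.mem_univ _) h
  rw [h2] at h1
  by_contra hv
  have h3 : χ (a * P.w p) * ψ b = 1 := by
    have h4 : (χ (a * P.w p) * ψ b - 1) * v p = 0 := by
      rw [sub_mul, h1, one_mul, sub_self]
    rcases mul_eq_zero.mp h4 with h5 | h5
    · exact sub_eq_zero.mp h5
    · exact absurd h5 hv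
  have h7 : (ψ b) ^ 91 = 1 := by
    have h8 := congrArg (· ^ 91) h3
    simp only [mul_pow, one_pow] at h8
    rwa [χ_pow_91, one_mul] at h8
  exact hb (ψ_pow_91 h7)

theorem Mc_diag_fix {a : ZMod 91} (ha : a ≠ 0) (v : Ix → ℂ) (h : (Mc P a 0).mulVec v = v) :
    v = 0 := by
  funext p
  have h1 := congrFun h p
  have h2 : (Mc P a 0).mulVec v p = χ (a * P.w p) * v p := by
    change ∑ q, Mc P a 0 p q * v q = _
    rw [Finset.sum_eq_single p]
    · rw [Mc_apply, act_zero, if_pos rfl, AddChar.map_zero_eq_one, mul_one]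
    · intro q _ hq
      rw [Mc_apply, act_zero, if_neg hq, zero_mul]
    · intro h
      exact absurd (Finset.mem_univ _) h
  rw [h2] at h1
  by_contra hv
  have h3 : χ (a * P.w p) = 1 := by
    have h4 : (χ (a * P.w p) - 1) * v p = 0 := by
      rw [sub_mul, h1, one_mul, sub_self]
    rcases mul_eq_zero.mp h4 with h5 | h5
    · exact sub_eq_zero.mp h5
    · exact absurd h5 hv
  have h12 : a * P.w p = 0 := by
    apply ZMod.injective_stdAddChar (N := 91)
    rw [AddChar.map_zero_eq_one]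
    exact h3
  exact ha (((P.hwu p).mul_left_eq_zero).mp h12)

theorem Mc_fix {a : ZMod 91} {b : ZMod 9} (hab : ¬ (a = 0 ∧ b = 0)) (v : Ix → ℂ)
    (h : (Mc P a b).mulVec v = v) : v = 0 := by
  by_cases hb : b = 0
  · subst hb
    exact Mc_diag_fix P (fun ha => hab ⟨ha, rfl⟩) v h
  · by_cases hb3 : (b.cast : ZMod 3) = 0
    · exact Mc_scalar_fix P hb v hb3 a h
    · -- pass to the cube
      have h3 : (Mc P a b * (Mc P a b * Mc P a b)).mulVec v = v := by
        rw [← Matrix.mulVec_mulVec, ← Matrix.mulVec_mulVec, h, h, h]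
      rw [Mc_mul, Mc_mul] at h3
      refine Mc_scalar_fix P ?_ v ?_ _ h3
      · revert hb3; clear h3 h hb hab; revert b; decide
      · clear h3 h hb hab hb3; revert b; decide

theorem free_Gp : FreeOn (Gp P) := by
  rintro _ ⟨a, b, rfl⟩ hg v hv
  have hab : ¬ (a = 0 ∧ b = 0) := by
    rintro ⟨rfl, rfl⟩
    exact hg (Mo_one P)
  exact Rf_fix en (Mc P a b) (fun z hz => Mc_fix P hab z hz) v hv

theorem charpolyRev_Mo (a : ZMod 91) (b : ZMod 9) : (cx (Mo P a b).1).charpolyRev =
    (Mc P a b).charpolyRev * ((Mc P a b).map star).charpolyRev := by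
  rw [Mo_coe, charpolyRev_Rf]

theorem Mc_pow_exists (a : ZMod 91) (b : ZMod 9) (k : ℕ) :
    ∃ c, Mo P a b ^ k = Mo P c (k • b) := by
  induction k with
  | zero => exact ⟨0, by rw [pow_zero, zero_smul, Mo_one]⟩
  | succ k ih =>
    obtain ⟨c, hc⟩ := ih
    exact ⟨_, by rw [pow_succ, hc, Mo_mul, succ_nsmul]⟩

theorem Mo_pow_819 (a : ZMod 91) (b : ZMod 9) : Mo P a b ^ 819 = 1 := by
  have h : (⟨Mo P a b, a, b, rfl⟩ : Gp P) ^ Nat.card (Gp P) = 1 := pow_card_eq_one'
  rw [card_Gp P] at h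
  have h2 := congrArg Subtype.val h
  rwa [Subgroup.coe_pow] at h2

end Pool.Agent.R738.Ikeda17
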