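import Pool.Agent.R738.Ikeda17

set_option autoImplicit false
set_option maxHeartbeats 400000

/-! # The two groups: isospectrality and non-isomorphism -/

namespace Pool.Agent.R738.Ikeda17

open Matrix Pool.Agent.Helper477.Sph

theorem unit_of_inv {x : ZMod 91} (h : ∃ y : ZMod 91, x * y = 1) : IsUnit x :=
  isUnit_iff_exists_inv.mpr h

/-- First parameter. -/
noncomputable def P₁ : Par where
  r := 16
  w p := 9 ^ p.1.val * 16 ^ p.2.val
  hr := by decide +kernel
  hw := by decide +kernel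
  hr1 := by decide +kernel
  hr3 b hb := by
    apply unit_of_inv
    revert hb
    revert b
    decide +kernel
  hwu p := by
    apply unit_of_inv
    revert p
    decide +kernel

/-- Second parameter. -/
noncomputable def P₂ : Par where
  r := 9
  w p := 16 ^ p.1.val * 9 ^ p.2.val
  hr := by decide +kernel
  hw := by decide +kernel
  hr1 := by decide +kernel
  hr3 b hb := by
    apply unit_of_inv
    revert hb
    revert b
    decide +kernel
  hwu p := by
    apply unit_of_inv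
    revert p
    decide +kernel

theorem charpoly_conj {ι : Type*} [Fintype ι] [DecidableEq ι] (A M B : Matrix ι ι ℂ)
    (h : A * B = 1) : (A * M * B).charpoly = M.charpoly := by
  rw [Matrix.charpoly_mul_comm, ← Matrix.mul_assoc, mul_eq_one_comm.mp h, Matrix.one_mul]

theorem Mc_diag (P : Par) (a : ZMod 91) {b : ZMod 9} (hb : (b.cast : ZMod 3) = 0) :
    Mc P a b = Matrix.diagonal fun p => χ (a * P.w p) * ψ b := by
  ext p p'
  have hact : act b p = p := by
    unfold act; rw [hb, add_zero]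
  rw [Mc_apply, hact, Matrix.diagonal_apply]
  simp only [eq_comm]

theorem Mc_conj (P : Par) (a : ZMod 91) {b : ZMod 9} (hb : (b.cast : ZMod 3) ≠ 0) :
    (Mc P a b).charpoly = (Mc P 0 b).charpoly := by
  obtain ⟨u, hu⟩ := P.hr3 b hb
  have h1 : Mc P (a * ↑u⁻¹) 0 * Mc P 0 b * Mc P (-(a * ↑u⁻¹)) 0 = Mc P a b := by
    rw [Mc_mul, Mc_mul, mul_zero, add_zero, zero_add, add_zero]
    congr 1
    have h2 : P.r ^ b.val = 1 - ↑u := by rw [hu]; ring
    have h3 : (↑u⁻¹ : ZMod 91) * u = 1 := u.inv_mul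
    rw [h2]
    linear_combination a * h3
  rw [← h1]
  apply charpoly_conj
  rw [Mc_mul, ZMod.val_zero, pow_zero, one_mul, add_neg_cancel, add_zero, Mc_one]

theorem charpoly_eq (a : ZMod 91) (b : ZMod 9) : (Mc P₁ a b).charpoly = (Mc P₂ a b).charpoly := by
  by_cases hb : (b.cast : ZMod 3) = 0
  · rw [Mc_diag P₁ a hb, Mc_diag P₂ a hb, Matrix.charpoly_diagonal, Matrix.charpoly_diagonal]
    refine Fintype.prod_equiv (Equiv.prodComm _ _) _ _ fun p => ?_
    have h : P₁.w p = P₂.w (Equiv.prodComm _ _ p) := by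
      change (9 ^ p.1.val * 16 ^ p.2.val : ZMod 91) = 16 ^ p.2.val * 9 ^ p.1.val
      rw [mul_comm]
    rw [h]
  · rw [Mc_conj P₁ a hb, Mc_conj P₂ a hb]
    congr 1
    ext p p'
    rw [Mc_apply, Mc_apply, zero_mul, zero_mul]

theorem charpolyRev_star {ι : Type*} [Fintype ι] [DecidableEq ι] {M N : Matrix ι ι ℂ}
    (h : M.charpoly = N.charpoly) : (M.map star).charpolyRev = (N.map star).charpolyRev := by
  have h1 : ∀ M : Matrix ι ι ℂ, (M.map star).charpolyRev =
      (M.charpoly.map (starRingEnd ℂ)).reverse := by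
    intro M
    rw [← Matrix.charpoly_map, ← Matrix.reverse_charpoly]
    rfl
  rw [h1, h1, h]

theorem charpolyRev_eq (a : ZMod 91) (b : ZMod 9) :
    (cx (Mo P₁ a b).1).charpolyRev = (cx (Mo P₂ a b).1).charpolyRev := by
  rw [charpolyRev_Mo, charpolyRev_Mo, charpolyRev_star (charpoly_eq a b),
    ← Matrix.reverse_charpoly (Mc P₁ a b), ← Matrix.reverse_charpoly (Mc P₂ a b),
    charpoly_eq a b]

theorem tau_eq (a : ZMod 91) (b : ZMod 9) :
    tau (cx (Mo P₁ a b).1) = tau (cx (Mo P₂ a b).1) := by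
  have h : ∀ P : Par, tau (cx (Mo P a b).1) * ((cx (Mo P a b).1).charpolyRev : PowerSeries ℂ) = 1 := by
    intro P
    apply tau_mul_charpolyRev _ 819 (by norm_num)
    rw [← cx_pow, ← SubmonoidClass.coe_pow, Mo_pow_819]
    exact cx_one
  have h1 := h P₁
  have h2 := h P₂
  rw [← charpolyRev_eq a b] at h2
  calc tau (cx (Mo P₁ a b).1) = tau (cx (Mo P₁ a b).1) *
        (tau (cx (Mo P₂ a b).1) * ((cx (Mo P₁ a b).1).charpolyRev : PowerSeries ℂ)) := by
          rw [h2, mul_one]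
    _ = (tau (cx (Mo P₁ a b).1) * ((cx (Mo P₁ a b).1).charpolyRev : PowerSeries ℂ)) *
        tau (cx (Mo P₂ a b).1) := by ring
    _ = _ := by rw [h1, one_mul]

theorem hilb_eq : hilb (Gp P₁) = hilb (Gp P₂) := by
  classical
  have : Fintype (Gp P₁) := Fintype.ofFinite _
  have : Fintype (Gp P₂) := Fintype.ofFinite _
  have h : ∀ (P : Par) [Fintype (Gp P)], PowerSeries.C (819 : ℂ) * hilb (Gp P) =
      ∑ x : ZMod 91 × ZMod 9, tau (cx (Mo P x.1 x.2).1) := by
    intro P _
    have h1 := molien_series (Gp P)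
    have h2 : (Fintype.card (Gp P) : ℂ) = 819 := by
      rw [← Nat.card_eq_fintype_card, card_Gp]
      norm_num
    rw [h2] at h1
    rw [h1]
    exact (Equiv.sum_comp (param P) fun g => tau (cx g.1.1)).symm
  have h3 : PowerSeries.C (819 : ℂ) * hilb (Gp P₁) = PowerSeries.C (819 : ℂ) * hilb (Gp P₂) := by
    rw [h P₁, h P₂]
    exact Finset.sum_congr rfl fun x _ => tau_eq x.1 x.2
  refine mul_left_cancel₀ ?_ h3
  intro h4
  have h5 := congrArg (PowerSeries.coeff 0) h4
  rw [PowerSeries.coeff_zero_C, map_zero] at h5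
  norm_num at h5

theorem Mo_pow_zero (P : Par) (a : ZMod 91) (k : ℕ) : Mo P a 0 ^ k = Mo P (k * a) 0 := by
  induction k with
  | zero => rw [pow_zero, Nat.cast_zero, zero_mul, Mo_one]
  | succ k ih =>
    rw [pow_succ, ih, Mo_mul, ZMod.val_zero, pow_zero, one_mul, add_zero]
    congr 1
    push_cast
    ring

theorem arith : ∀ (w : ZMod 9) (u : ZMod 91), 9 ^ w.val * u = 16 * u → (7 : ZMod 91) * u ≠ 0 →
    (13 : ZMod 91) * u = 0 := by
  decide +kernel

theorem not_iso : ¬ Nonempty (Gp P₁ ≃* Gp P₂) := by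
  rintro ⟨f⟩
  set A : Gp P₁ := ⟨Mo P₁ 1 0, 1, 0, rfl⟩ with hA
  set B : Gp P₁ := ⟨Mo P₁ 0 1, 0, 1, rfl⟩ with hB
  obtain ⟨u, s, hus⟩ := (f A).2
  obtain ⟨v, w, hvw⟩ := (f B).2
  -- `A` has order `91`
  have hApow : ∀ k : ℕ, (A ^ k).1 = Mo P₁ (k : ZMod 91) 0 := by
    intro k
    rw [Subgroup.coe_pow, hA, Mo_pow_zero, mul_one]
  have hA91 : A ^ 91 = 1 := by
    apply Subtype.ext
    rw [hApow, ZMod.natCast_self, Mo_one]
    rfl
  have hfA : (f A) ^ 91 = 1 := by rw [← map_pow, hA91, map_one]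
  have hs : s = 0 := by
    have h1 : (Mo P₂ u s) ^ 91 = 1 := by
      rw [← hus, ← Subgroup.coe_pow, hfA]
      rfl
    obtain ⟨c, hc⟩ := Mc_pow_exists P₂ u s 91
    rw [h1, ← Mo_one P₂] at hc
    obtain ⟨_, h2⟩ := Mo_injective P₂ hc
    rw [nsmul_91] at h2
    exact h2.symm
  subst hs
  have hfpow : ∀ k : ℕ, ((k : ℕ) : ZMod 91) * u = 0 → A ^ k = 1 := by
    intro k hk
    apply f.injective
    rw [map_one]
    apply Subtype.ext
    rw [map_pow, Subgroup.coe_pow, hus, Mo_pow_zero, hk, Mo_one]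
    rfl
  have hk0 : ∀ k : ℕ, ((k : ℕ) : ZMod 91) * u = 0 → ((k : ℕ) : ZMod 91) = 0 := by
    intro k hk
    have h1 := congrArg Subtype.val (hfpow k hk)
    rw [hApow] at h1
    exact (Mo_injective P₁ (h1.trans (Mo_one P₁).symm)).1
  -- the relation
  have hrel : B * A = A ^ 16 * B := by
    apply Subtype.ext
    rw [Subgroup.coe_mul, Subgroup.coe_mul, hApow]
    change Mo P₁ 0 1 * Mo P₁ 1 0 = Mo P₁ _ 0 * Mo P₁ 0 1
    rw [Mo_mul, Mo_mul]
    congr 1
  have hrel' : (f B).1 * (f A).1 = (f A).1 ^ 16 * (f B).1 := by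
    rw [← Subgroup.coe_mul, ← Subgroup.coe_pow, ← Subgroup.coe_mul, ← map_mul, hrel, map_mul,
      map_pow]
  rw [hus, hvw, Mo_pow_zero, Mo_mul, Mo_mul] at hrel'
  obtain ⟨h1, _⟩ := Mo_injective P₂ hrel'
  have h2 : (9 : ZMod 91) ^ w.val * u = 16 * u := by
    change v + (9 : ZMod 91) ^ w.val * u = ((16 : ℕ) : ZMod 91) * u + 9 ^ (0 : ZMod 9).val * v at h1
    rw [ZMod.val_zero, pow_zero, one_mul] at h1
    push_cast at h1
    linear_combination h1
  have h3 : (7 : ZMod 91) * u ≠ 0 := by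
    intro h4
    have h5 := hk0 7 (by exact_mod_cast h4)
    exact absurd h5 (by decide)
  have h4 := arith w u h2 h3
  have h5 := hk0 13 (by exact_mod_cast h4)
  exact absurd h5 (by decide)

end Pool.Agent.R738.Ikeda17
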