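import Pool.Agent.R738.LensPair

set_option autoImplicit false
set_option maxRecDepth 100000

/-! # A certificate of order 56 -/

namespace Pool.Agent.R738

open Pool.Agent.Helper477.Sph

theorem cert56 : Cert 56 2 [1, 3, 5, 9, 11, 13, 15, 17, 19, 23, 25, 27]
    [3, 3, 5, 11, 11, 13, 17, 19, 19, 23, 25, 27, 27]
    [3, 5, 5, 9, 11, 11, 13, 15, 19, 19, 23, 27, 27] where
  hU := by decide +kernel
  hU0 := by decide
  hinv := by decide +kernel
  hlen := rfl
  horb := by decide +kernel
  hne := by decide +kernel
  hL := by decide +kernel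
  hL' := by decide +kernel

end Pool.Agent.R738
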