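import Pool.Agent.Helper477.Sph.Mol2

set_option autoImplicit false

/-! # Realification of complex matrices -/

namespace Pool.Agent.R738

open Matrix Pool.Agent.Helper477.Sph

set_option linter.unusedSectionVars false

variable {ι : Type*} [Fintype ι] [DecidableEq ι]

/-- The real matrix of a complex matrix. -/
noncomputable def Rl (M : Matrix ι ι ℂ) : Matrix (ι ⊕ ι) (ι ⊕ ι) ℝ :=
  Matrix.fromBlocks (M.map Complex.re) (-(M.map Complex.im)) (M.map Complex.im) (M.map Complex.re)

theorem map_re_mul (M N : Matrix ι ι ℂ) : (M * N).map Complex.re =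
    M.map Complex.re * N.map Complex.re - M.map Complex.im * N.map Complex.im := by
  ext i j
  simp [Matrix.mul_apply, Finset.sum_sub_distrib]

theorem map_im_mul (M N : Matrix ι ι ℂ) : (M * N).map Complex.im =
    M.map Complex.re * N.map Complex.im + M.map Complex.im * N.map Complex.re := by
  ext i j
  simp [Matrix.mul_apply, Finset.sum_add_distrib]

theorem Rl_mul (M N : Matrix ι ι ℂ) : Rl (M * N) = Rl M * Rl N := by
  unfold Rl
  rw [Matrix.fromBlocks_multiply, map_re_mul, map_im_mul]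
  congr 1
  · rw [Matrix.neg_mul, sub_eq_add_neg]
  · rw [Matrix.mul_neg, Matrix.neg_mul, neg_add]
  · rw [add_comm]
  · rw [Matrix.mul_neg, sub_eq_add_neg, add_comm]

theorem Rl_one : Rl (1 : Matrix ι ι ℂ) = 1 := by
  unfold Rl
  rw [← Matrix.fromBlocks_one]
  congr 1
  · ext i j; by_cases h : i = j <;> simp [Matrix.one_apply, h]
  · ext i j; by_cases h : i = j <;> simp [Matrix.one_apply, h]
  · ext i j; by_cases h : i = j <;> simp [Matrix.one_apply, h]
  · ext i j; by_cases h : i = j <;> simp [Matrix.one_apply, h]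

theorem Rl_transpose (M : Matrix ι ι ℂ) : (Rl M)ᵀ = Rl Mᴴ := by
  unfold Rl
  rw [Matrix.fromBlocks_transpose]
  congr 1 <;> (ext i j; simp)

theorem Rl_injective : Function.Injective (Rl (ι := ι)) := by
  intro M N h
  unfold Rl at h
  rw [Matrix.fromBlocks_inj] at h
  ext i j
  exact Complex.ext (congrFun (congrFun h.1 i) j) (congrFun (congrFun h.2.2.1 i) j)

/-- A fixed vector of the real matrix gives a fixed vector of the complex one. -/
theorem Rl_mulVec (M : Matrix ι ι ℂ) (v : ι ⊕ ι → ℝ) (h : (Rl M).mulVec v = v) :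
    M.mulVec (fun i => (v (Sum.inl i) : ℂ) + Complex.I * v (Sum.inr i)) =
      fun i => (v (Sum.inl i) : ℂ) + Complex.I * v (Sum.inr i) := by
  funext i
  have h1 := congrFun h (Sum.inl i)
  have h2 := congrFun h (Sum.inr i)
  simp only [Rl, Matrix.mulVec, dotProduct, Fintype.sum_sum_type, Matrix.fromBlocks_apply₁₁,
    Matrix.fromBlocks_apply₁₂, Matrix.fromBlocks_apply₂₁, Matrix.fromBlocks_apply₂₂,
    Matrix.map_apply, Matrix.neg_apply] at h1 h2
  rw [← Finset.sum_add_distrib] at h1 h2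
  simp only [Matrix.mulVec, dotProduct]
  apply Complex.ext
  · simp only [Complex.re_sum, Complex.mul_re, Complex.add_re, Complex.ofReal_re, Complex.I_re,
      Complex.I_im, Complex.ofReal_im, Complex.add_im, Complex.mul_im]
    rw [show (v (Sum.inl i) + (0 * v (Sum.inr i) - 1 * 0)) = v (Sum.inl i) by ring, ← h1]
    refine Finset.sum_congr rfl fun j _ => ?_
    ring
  · simp only [Complex.im_sum, Complex.mul_re, Complex.add_re, Complex.ofReal_re, Complex.I_re,
      Complex.I_im, Complex.ofReal_im, Complex.add_im, Complex.mul_im]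
    rw [show (0 + (0 * 0 + 1 * v (Sum.inr i))) = v (Sum.inr i) by ring, ← h2]
    refine Finset.sum_congr rfl fun j _ => ?_
    ring

/-- Characteristic polynomial of the realification. -/
theorem charpolyRev_Rl (M : Matrix ι ι ℂ) :
    ((Rl M).map (algebraMap ℝ ℂ)).charpolyRev = M.charpolyRev * (M.map star).charpolyRev := by
  set S : Matrix (ι ⊕ ι) (ι ⊕ ι) ℂ := Matrix.fromBlocks 1 (Complex.I • 1) 1 (-(Complex.I • 1))
    with hS
  set S' : Matrix (ι ⊕ ι) (ι ⊕ ι) ℂ := (1 / 2 : ℂ) •
    Matrix.fromBlocks 1 1 (-(Complex.I • 1)) (Complex.I • 1) with hS'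
  have hII : Complex.I * Complex.I = -1 := Complex.I_mul_I
  have h1 : S' * S = 1 := by
    rw [hS, hS', Matrix.smul_mul, Matrix.fromBlocks_multiply, ← Matrix.fromBlocks_one,
      Matrix.fromBlocks_smul]
    congr 1
    · rw [Matrix.one_mul, ← two_smul ℂ, smul_smul]; norm_num
    · rw [Matrix.one_mul, Matrix.one_mul, add_neg_cancel, smul_zero]
    · rw [Matrix.mul_one, Matrix.mul_one, neg_add_cancel, smul_zero]
    · rw [Matrix.neg_mul, Matrix.mul_neg, Matrix.smul_mul, Matrix.one_mul, smul_smul, hII,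
        ← neg_add, ← two_smul ℂ, smul_neg, smul_smul, smul_smul]
      norm_num
  have h2 : S * (Rl M).map (algebraMap ℝ ℂ) =
      Matrix.fromBlocks M 0 0 (M.map star) * S := by
    rw [hS, Rl, Matrix.fromBlocks_map, Matrix.fromBlocks_multiply, Matrix.fromBlocks_multiply]
    congr 1
    · ext i j
      simp [Complex.ext_iff]
    · ext i j
      simp [Complex.ext_iff]
    · ext i j
      simp [Complex.ext_iff]
    · ext i j
      simp [Complex.ext_iff]
  have h3 : (Rl M).map (algebraMap ℝ ℂ) = S' * Matrix.fromBlocks M 0 0 (M.map star) * S := by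
    rw [Matrix.mul_assoc, ← h2, ← Matrix.mul_assoc, h1, Matrix.one_mul]
  have h4 : S * S' = 1 := mul_eq_one_comm.mp h1
  rw [h3, ← Matrix.reverse_charpoly, ← Matrix.reverse_charpoly, ← Matrix.reverse_charpoly,
    Matrix.charpoly_mul_comm, ← Matrix.mul_assoc, h4, Matrix.one_mul,
    Matrix.charpoly_fromBlocks_zero₂₁, Polynomial.reverse_mul_of_domain]

/-- The real matrix of a complex matrix, with an enumeration of the coordinates. -/
noncomputable def Rf {n : ℕ} (e : ι ⊕ ι ≃ Fin n) (M : Matrix ι ι ℂ) : Matrix (Fin n) (Fin n) ℝ :=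
  Matrix.reindexAlgEquiv ℝ ℝ e (Rl M)

variable {n : ℕ} (e : ι ⊕ ι ≃ Fin n)

theorem Rf_mul (M N : Matrix ι ι ℂ) : Rf e (M * N) = Rf e M * Rf e N := by
  unfold Rf
  rw [Rl_mul, map_mul]

theorem Rf_one : Rf e (1 : Matrix ι ι ℂ) = 1 := by
  unfold Rf
  rw [Rl_one, map_one]

theorem Rf_transpose (M : Matrix ι ι ℂ) : (Rf e M)ᵀ = Rf e Mᴴ := by
  unfold Rf
  rw [← Rl_transpose]
  rfl

theorem Rf_injective : Function.Injective (Rf e) := fun _ _ h =>
  Rl_injective ((Matrix.reindexAlgEquiv ℝ ℝ e).injective h)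

theorem Rf_mem {M : Matrix ι ι ℂ} (h : M * Mᴴ = 1) : Rf e M ∈ Matrix.orthogonalGroup (Fin n) ℝ := by
  rw [Matrix.mem_orthogonalGroup_iff]
  change Rf e M * (Rf e M)ᵀ = 1
  rw [Rf_transpose, ← Rf_mul, h, Rf_one]

theorem charpolyRev_Rf (M : Matrix ι ι ℂ) : (cx (Rf e M)).charpolyRev =
    M.charpolyRev * (M.map star).charpolyRev := by
  rw [← charpolyRev_Rl]
  have h : cx (Rf e M) = Matrix.reindex e e ((Rl M).map (algebraMap ℝ ℂ)) := rfl
  rw [h, ← Matrix.reverse_charpoly, ← Matrix.reverse_charpoly, Matrix.charpoly_reindex]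

theorem Rf_fix (M : Matrix ι ι ℂ) (hM : ∀ z : ι → ℂ, M.mulVec z = z → z = 0) (v : Fin n → ℝ)
    (hv : (Rf e M).mulVec v = v) : v = 0 := by
  have h1 : (Rl M).mulVec (v ∘ e) = v ∘ e := by
    have h2 : Rf e M = (Rl M).submatrix e.symm e.symm := rfl
    rw [h2, Matrix.submatrix_mulVec_equiv] at hv
    have h3 := congrArg (fun u => u ∘ e) hv
    simpa [Function.comp_assoc] using h3
  have h4 := hM _ (Rl_mulVec _ _ h1)
  funext i
  obtain ⟨j, rfl⟩ := e.surjective i
  rcases j with j | j
  · have h5 := congrArg Complex.re (congrFun h4 j)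
    simpa using h5
  · have h5 := congrArg Complex.im (congrFun h4 j)
    simpa using h5

end Pool.Agent.R738
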